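import Pool.Agent.Helper87.GJ.Defs
import Pool.Agent.Helper36.GE.E1

/-!
# GJ, block J1b: sublevel sets of integer polynomials whose large coefficients lie in a window
-/

set_option autoImplicit false
open MeasureTheory Set Filter Topology
open Pool.Agent.Helper18.GP (gp nm KK)

namespace Pool.Agent.GJ

open Pool.Agent.Helper18.GP (F Cs hasDerivAt_F bd bd_nonneg F_le cont_F cf F_cf chop_meas)

namespace J1b

/-- real form of the class -/
def Gs (H r : ℕ) : Set (ℕ → ℝ) :=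
  {c | c ∈ Cs ((H : ℝ) + r) ∧ (∀ j, c j ∈ Set.range (fun n : ℤ => (n : ℝ))) ∧
    ∀ i j, i + r ≤ j → |c i| ≤ H ∨ |c j| ≤ H}

theorem compact_Gs (H r : ℕ) : IsCompact (Gs H r) := by
  have h1 : IsClosed {c : ℕ → ℝ | ∀ j, c j ∈ Set.range (fun n : ℤ => (n : ℝ))} := by
    have h3 : {c : ℕ → ℝ | ∀ j, c j ∈ Set.range (fun n : ℤ => (n : ℝ))} =
        ⋂ j : ℕ, {c : ℕ → ℝ | c j ∈ Set.range (fun n : ℤ => (n : ℝ))} := by
      ext c
      simp only [Set.mem_ofPred_eq, Set.mem_iInter]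
    rw [h3]
    exact isClosed_iInter fun j => Int.isClosedEmbedding_coe_real.isClosed_range.preimage (continuous_apply j)
  have h2 : IsClosed {c : ℕ → ℝ | ∀ i j, i + r ≤ j → |c i| ≤ H ∨ |c j| ≤ H} := by
    have h3 : {c : ℕ → ℝ | ∀ i j, i + r ≤ j → |c i| ≤ H ∨ |c j| ≤ H} =
        ⋂ i : ℕ, ⋂ j : ℕ, ⋂ _ : i + r ≤ j, ({c : ℕ → ℝ | |c i| ≤ H} ∪ {c : ℕ → ℝ | |c j| ≤ H}) := by
      ext c
      simp only [Set.mem_ofPred_eq, Set.mem_iInter, Set.mem_union]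
    rw [h3]
    refine isClosed_iInter fun i => isClosed_iInter fun j => isClosed_iInter fun _ => ?_
    exact (isClosed_le (continuous_abs.comp (continuous_apply i)) continuous_const).union
      (isClosed_le (continuous_abs.comp (continuous_apply j)) continuous_const)
  have h4 : Gs H r = Cs ((H : ℝ) + r) ∩ ({c : ℕ → ℝ | ∀ j, c j ∈ Set.range (fun n : ℤ => (n : ℝ))} ∩
      {c : ℕ → ℝ | ∀ i j, i + r ≤ j → |c i| ≤ H ∨ |c j| ≤ H}) := by
    ext c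
    exact ⟨fun h => ⟨h.1, h.2.1, h.2.2⟩, fun h => ⟨h.1, h.2.1, h.2.2⟩⟩
  rw [h4]
  exact (Pool.Agent.Helper18.GP.compact_Cs _).inter_right (h1.inter h2)

theorem Gs_sub (H r : ℕ) : Gs H r ⊆ Cs ((H : ℝ) + r) := fun _ hc => hc.1

/-- members of the class are integer sequences -/
theorem exists_int {H r : ℕ} {c : ℕ → ℝ} (hc : c ∈ Gs H r) : ∃ d ∈ Fs H r, c = fun j => (d j : ℝ) := by
  obtain ⟨⟨h0, h1⟩, h2, h3⟩ := hc
  choose d hd using h2
  have hcd : c = fun j => (d j : ℝ) := funext fun j => (hd j).symm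
  subst hcd
  refine ⟨d, ⟨?_, fun j => ?_, fun i j hij => ?_⟩, rfl⟩
  · intro h
    beta_reduce at h0
    rw [h] at h0
    norm_num at h0
  · have := h1 j
    beta_reduce at this
    exact_mod_cast this
  · have := h3 i j hij
    beta_reduce at this
    exact_mod_cast this

/-- the points at distance at least `l m` from `p m` -/
def Vs (a b : ℝ) (p l : ℕ → ℝ) : Set ℝ := {y | y ∈ Icc a b ∧ ∀ m, l m ≤ |y - p m|}

theorem compact_Vs (a b : ℝ) (p l : ℕ → ℝ) : IsCompact (Vs a b p l) := by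
  have h1 : IsClosed {y : ℝ | ∀ m, l m ≤ |y - p m|} := by
    have h3 : {y : ℝ | ∀ m, l m ≤ |y - p m|} = ⋂ m : ℕ, {y : ℝ | l m ≤ |y - p m|} := by
      ext c
      simp only [Set.mem_ofPred_eq, Set.mem_iInter]
    rw [h3]
    exact isClosed_iInter fun m => isClosed_le continuous_const (continuous_id.sub continuous_const).abs
  exact isCompact_Icc.inter_right h1

/-- Transversality. -/
theorem transvJ {a : ℝ} (b : ℝ) (ha : 1 < a) {H r : ℕ} {p l : ℕ → ℝ}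
    (hne : ∀ d ∈ Fs H r, ∀ x ∈ Vs a b p l, ∃ k ≤ KJ a H, F k (fun j => (d j : ℝ)) x ≠ 0) :
    ∃ c₀ : ℝ, 0 < c₀ ∧ ∀ c ∈ Gs H r, ∀ x ∈ Vs a b p l, ∃ k, k ≤ KJ a H ∧ c₀ ≤ |F k c x| := by
  have hcomp : IsCompact (Gs H r ×ˢ Vs a b p l) := (compact_Gs H r).prod (compact_Vs a b p l)
  have key := hcomp.induction_on (p := fun s => ∃ c₀ : ℝ, 0 < c₀ ∧ ∀ q ∈ s, q ∈ Gs H r ×ˢ Vs a b p l →
      ∃ k, k ≤ KJ a H ∧ c₀ ≤ |F k q.1 q.2|) ⟨1, one_pos, fun q hq => absurd hq (Set.notMem_empty q)⟩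
    (fun s t hst ⟨c₀, h0, h⟩ => ⟨c₀, h0, fun q hq => h q (hst hq)⟩)
    (fun s t ⟨c₀, h0, h⟩ ⟨c₀', h0', h'⟩ => ⟨min c₀ c₀', lt_min h0 h0', fun q hq hqX => ?_⟩)
    (fun q hq => ?_)
  · obtain ⟨c₀, h0, h⟩ := key
    exact ⟨c₀, h0, fun c hc x hx => h (c, x) ⟨hc, hx⟩ ⟨hc, hx⟩⟩
  · rcases hq with hq | hq
    · obtain ⟨k, h1, h2⟩ := h q hq hqX
      exact ⟨k, h1, (min_le_left _ _).trans h2⟩
    · obtain ⟨k, h1, h2⟩ := h' q hq hqX
      exact ⟨k, h1, (min_le_right _ _).trans h2⟩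
  · obtain ⟨d, hd, hcd⟩ := exists_int hq.1
    obtain ⟨k, hkK, hk⟩ := hne d hd q.2 hq.2
    rw [← hcd] at hk
    have hpos : 0 < |F k q.1 q.2| := abs_pos.2 hk
    have hsub : Gs H r ×ˢ Vs a b p l ⊆ Cs ((H : ℝ) + r) ×ˢ Icc a b :=
      Set.prod_mono (Gs_sub H r) fun y hy => hy.1
    have h1 := ((cont_F b ha ((H : ℝ) + r) k).mono hsub).abs q hq
    have h2 := h1.eventually (lt_mem_nhds (show |F k q.1 q.2| / 2 < |F k q.1 q.2| by linarith))
    refine ⟨_, h2, |F k q.1 q.2| / 2, by positivity, fun q' hq' _ => ⟨k, hkK, le_of_lt hq'⟩⟩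

/-- constants of the class -/
theorem shortJ {a : ℝ} (b : ℝ) (ha : 1 < a) {H r : ℕ} {p l : ℕ → ℝ}
    (hne : ∀ d ∈ Fs H r, ∀ x ∈ Vs a b p l, ∃ k ≤ KJ a H, F k (fun j => (d j : ℝ)) x ≠ 0) :
    ∃ (μ η ζ : ℝ), 0 < μ ∧ 0 < η ∧ 0 < ζ ∧ ∀ c ∈ Gs H r, ∀ p' q', a ≤ p' → p' ≤ q' → q' ≤ b → q' - p' ≤ η →
      (∃ x ∈ Icc p' q', ∃ y ∈ Vs a b p l, |x - y| ≤ ζ) → ∃ k ≤ KJ a H, ∀ x ∈ Icc p' q', μ ≤ |F k c x| := by
  obtain ⟨c₀, hc₀, htr⟩ := transvJ b ha hne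
  set K : ℕ := KJ a H with hK
  have hH' : (0:ℝ) ≤ (H : ℝ) + r := by positivity
  set B : ℝ := ∑ k ∈ Finset.range (K + 2), ((H : ℝ) + r) * ∑' j, bd k a j with hB
  have hnn : ∀ k, 0 ≤ ((H : ℝ) + r) * ∑' j, bd k a j := fun k =>
    mul_nonneg hH' (tsum_nonneg fun j => bd_nonneg (by linarith) k j)
  have hle : ∀ k, k ≤ K + 1 → ((H : ℝ) + r) * ∑' j, bd k a j ≤ B := fun k hk =>
    Finset.single_le_sum (f := fun k => ((H : ℝ) + r) * ∑' j, bd k a j) (fun k _ => hnn k) (Finset.mem_range.2 (by omega))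
  have hB0 : 0 ≤ B := (hnn 0).trans (hle 0 (by omega))
  have hFB : ∀ k, k ≤ K + 1 → ∀ c ∈ Gs H r, ∀ x ∈ Icc a b, |F k c x| ≤ B := fun k hk c hc x hx =>
    (F_le ha hx.1 hc.1.2 k).trans (hle k hk)
  refine ⟨c₀ / 2, c₀ / (4 * (B + 1)), c₀ / (4 * (B + 1)), by positivity, by positivity, by positivity, ?_⟩
  rintro c hc p' q' hp hpq hq hs ⟨x₀, hx₀, y, hy, hxy⟩
  obtain ⟨k, hk, hk2⟩ := htr c hc y hy
  refine ⟨k, hk, fun x hx => ?_⟩
  have hxab : x ∈ Icc a b := ⟨hp.trans hx.1, hx.2.trans hq⟩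
  have h1 := Convex.norm_image_sub_le_of_norm_hasDerivWithin_le (f := F k c) (f' := F (k + 1) c)
    (C := B) (s := Icc a b) (fun z hz => (hasDerivAt_F (lt_of_lt_of_le ha hz.1) hc.1.2 k).hasDerivWithinAt)
    (fun z hz => by rw [Real.norm_eq_abs]; exact hFB (k + 1) (by omega) c hc z hz) (convex_Icc a b)
    hy.1 hxab
  rw [Real.norm_eq_abs, Real.norm_eq_abs] at h1
  have h2 : B * |x - y| ≤ c₀ / 2 := by
    have h3 : |x - y| ≤ c₀ / (2 * (B + 1)) := by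
      have h4 : |x - y| ≤ |x - x₀| + |x₀ - y| := abs_sub_le x x₀ y
      have h5 : |x - x₀| ≤ q' - p' := by
        rw [abs_le]
        constructor <;> linarith [hx.1, hx.2, hx₀.1, hx₀.2]
      have h6 : c₀ / (2 * (B + 1)) = c₀ / (4 * (B + 1)) + c₀ / (4 * (B + 1)) := by
        field_simp
        norm_num
      rw [h6]
      linarith
    calc B * |x - y| ≤ (B + 1) * (c₀ / (2 * (B + 1))) :=
          mul_le_mul (by linarith) h3 (abs_nonneg _) (by linarith)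
      _ = c₀ / 2 := by field_simp
  have h4 : |F k c y| - |F k c x - F k c y| ≤ |F k c x| := by
    have := abs_sub_abs_le_abs_sub (F k c y) (F k c y - F k c x)
    rw [show F k c y - (F k c y - F k c x) = F k c x by ring, abs_sub_comm (F k c y) (F k c x)] at this
    linarith
  linarith

theorem cf_memJ {H r : ℕ} {M : ℕ} {d : ℕ → ℤ} (hM : d M ≠ 0) (hd : ∀ i ≤ M, |d i| ≤ H + r)
    (h2 : ∀ i j, i + r ≤ j → j ≤ M → |d i| ≤ H ∨ |d j| ≤ H) : cf M (fun i => (d i : ℝ)) ∈ Gs H r := by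
  have hM1 : (1:ℝ) ≤ |((d M : ℤ) : ℝ)| := by
    have : 1 ≤ |d M| := Int.one_le_abs hM
    exact_mod_cast this
  refine ⟨⟨by simpa [cf] using hM1, fun j => ?_⟩, fun j => ?_, fun i j hij => ?_⟩
  · unfold cf
    split_ifs with h
    · have := hd (M - j) (by omega)
      beta_reduce
      exact_mod_cast this
    · rw [abs_zero]; positivity
  · unfold cf
    split_ifs with h
    · exact ⟨d (M - j), rfl⟩
    · exact ⟨0, by simp⟩
  · unfold cf
    by_cases hj : j ≤ M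
    · rw [if_pos hj, if_pos (by omega)]
      beta_reduce
      rcases h2 (M - j) (M - i) (by omega) (by omega) with h | h
      · right; exact_mod_cast h
      · left; exact_mod_cast h
    · right
      rw [if_neg hj, abs_zero]; positivity

end J1b

open J1b in
/-- J1b, from J1a. -/
theorem sublevelJ_of {a b : ℝ} (ha : 1 < a) (hab : a ≤ b) {H : ℕ} (r : ℕ)
    (hctb : {x : ℝ | x ∈ Icc a b ∧ ∃ c ∈ Fs H r, ∀ l ≤ KJ a H, F l (fun j => (c j : ℝ)) x = 0}.Countable)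
    {η : ℝ} (hη : 0 < η) :
    ∃ p l : ℕ → ℝ, (∀ m, 0 < l m) ∧ Summable (fun m => √(l m)) ∧ ∑' m, √(l m) ≤ η ∧ ∃ C ζ : ℝ, 0 < C ∧ 0 < ζ ∧
    ∀ (M : ℕ) (d : ℕ → ℤ), d M ≠ 0 → (∀ i ≤ M, |d i| ≤ H + r) → (∀ i j, i + r ≤ j → j ≤ M → |d i| ≤ H ∨ |d j| ≤ H) →
    ∀ ρ : ℝ, 0 < ρ → volume {x : ℝ | x ∈ Icc a b ∧ (∃ y ∈ Icc a b, |x - y| ≤ ζ ∧ ∀ m, l m ≤ |y - p m|) ∧
        |∑ i ∈ Finset.range (M + 1), (d i : ℝ) * x ^ i| ≤ ρ} ≤
      ENNReal.ofReal (C * (ρ * a ^ (-(M : ℝ))) ^ (1 / ((KJ a H : ℝ) + 1))) := by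
  obtain ⟨p, hp⟩ := Set.countable_iff_exists_subset_range.1 hctb
  set l : ℕ → ℝ := fun m => (η * (1 / 2) ^ (m + 1)) ^ 2 with hl
  have hlpos : ∀ m, 0 < l m := fun m => by simp only [hl]; positivity
  have hsq : (fun m => √(l m)) = fun m : ℕ => η / 2 / 2 ^ m := by
    funext m
    simp only [hl]
    rw [Real.sqrt_sq (by positivity), pow_succ, one_div, inv_pow]
    ring
  have hsum : HasSum (fun m => √(l m)) η := by
    rw [hsq]
    exact hasSum_geometric_two' η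
  refine ⟨p, l, hlpos, hsum.summable, hsum.tsum_eq.le, ?_⟩
  have hne : ∀ d ∈ Fs H r, ∀ x ∈ Vs a b p l, ∃ k ≤ KJ a H, F k (fun j => (d j : ℝ)) x ≠ 0 := by
    intro d hd x hx
    by_contra hcon
    push Not at hcon
    obtain ⟨m, hm⟩ := hp ⟨hx.1, d, hd, hcon⟩
    have h1 := hx.2 m
    rw [hm, sub_self, abs_zero] at h1
    linarith [hlpos m]
  obtain ⟨μ, η₀, ζ, hμ, hη₀, hζ, hsh⟩ := shortJ b ha hne
  set K : ℕ := KJ a H with hK
  have ha0 : 0 < a := by linarith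
  set n : ℕ := ⌈(b - a) / η₀⌉₊ with hn
  set κ : ℝ := 1 / ((K : ℝ) + 1) with hκ
  have hκ0 : 0 < κ := by positivity
  set C : ℝ := (((n : ℝ) + 1) * (2 ^ K * 2) + (b - a) + 1) * (2 / μ) ^ κ with hC
  have hn0 : (0 : ℝ) ≤ ((n : ℝ) + 1) * (2 ^ K * 2) := by positivity
  have hμκ : 0 < (2 / μ) ^ κ := Real.rpow_pos_of_pos (by positivity) _
  have hC0 : 0 < C := mul_pos (by linarith) hμκ
  refine ⟨C, ζ, hC0, hζ, fun s d hds hd hd2 ρ hρ => ?_⟩
  set c : ℕ → ℝ := fun i => (d i : ℝ) with hcdef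
  have hcf : cf s c ∈ Gs H r := cf_memJ hds hd hd2
  set R : ℝ := ρ * a ^ (-(s : ℝ)) with hr
  have hr0 : 0 < R := by positivity
  have hrκ : (2 / μ) ^ κ * R ^ κ = (2 * R / μ) ^ κ := by
    rw [← Real.mul_rpow (by positivity) hr0.le]
    congr 1
    ring
  set S : Set ℝ := {x : ℝ | x ∈ Icc a b ∧ (∃ y ∈ Icc a b, |x - y| ≤ ζ ∧ ∀ m, l m ≤ |y - p m|) ∧
        |∑ i ∈ Finset.range (s + 1), (d i : ℝ) * x ^ i| ≤ ρ} with hS
  rcases le_or_gt 1 (2 * R / μ) with hbig | hsmall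
  · have h1 : volume S ≤ ENNReal.ofReal (b - a) := by
      rw [← Real.volume_Icc]
      exact measure_mono fun x hx => hx.1
    refine h1.trans (ENNReal.ofReal_le_ofReal ?_)
    have h3 : (1 : ℝ) ≤ (2 * R / μ) ^ κ := Real.one_le_rpow hbig hκ0.le
    rw [hC, mul_assoc, hrκ]
    nlinarith
  · set τ : ℝ := (2 * R / μ) ^ κ with hτ
    have hτ0 : 0 < τ := Real.rpow_pos_of_pos (by positivity) _
    have hτ1 : τ ≤ 1 := Real.rpow_le_one (by positivity) hsmall.le hκ0.le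
    have hτK : τ ^ (K + 1) = 2 * R / μ := by
      rw [hτ, ← Real.rpow_natCast, ← Real.rpow_mul (by positivity), hκ]
      have : (1 / ((K : ℝ) + 1) * ((K + 1 : ℕ) : ℝ)) = 1 := by
        push_cast
        field_simp
      rw [this, Real.rpow_one]
    have hF : ∀ x ∈ Icc a b, |∑ i ∈ Finset.range (s + 1), c i * x ^ i| ≤ ρ → |F 0 (cf s c) x| ≤ R := by
      intro x hx hxρ
      have hx0 : 0 < x := by linarith [hx.1]
      rw [← F_cf hx0.ne', abs_mul, abs_of_pos (by positivity)] at hxρ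
      have h4 : a ^ s ≤ x ^ s := pow_le_pow_left₀ ha0.le hx.1 s
      have h5 : a ^ s * |F 0 (cf s c) x| ≤ ρ := (mul_le_mul_of_nonneg_right h4 (abs_nonneg _)).trans hxρ
      rw [hr, Real.rpow_neg ha0.le, Real.rpow_natCast, ← div_eq_mul_inv, le_div_iff₀ (by positivity), mul_comm]
      exact h5
    have hshort : ∀ p' q', a ≤ p' → p' ≤ q' → q' ≤ b → q' - p' ≤ η₀ →
        volume (Icc p' q' ∩ S) ≤ ENNReal.ofReal (2 ^ K * (2 * τ)) := by
      intro p' q' hp' hpq hq hs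
      rcases Set.eq_empty_or_nonempty (Icc p' q' ∩ S) with hem | ⟨x₀, hx₀, hx₀S⟩
      · rw [hem, measure_empty]
        exact zero_le
      obtain ⟨y, hy, hxy, hym⟩ := hx₀S.2.1
      obtain ⟨k, hk, hk2⟩ := hsh (cf s c) hcf p' q' hp' hpq hq hs ⟨x₀, hx₀, y, ⟨hy, hym⟩, hxy⟩
      have h6 := Pool.Agent.Helper18.GP.meas_ind (a := a) (b := b) (h := fun k => F k (cf s c))
        (fun k x hx => hasDerivAt_F (lt_of_lt_of_le ha hx.1) hcf.1.2 k) hτ0 k μ hμ p' q' hp' hpq hq hk2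
      refine (measure_mono ?_).trans (h6.trans (ENNReal.ofReal_le_ofReal ?_))
      · rintro x ⟨hx, hxI, _, hxρ⟩
        refine ⟨hx, (hF x hxI hxρ).trans_lt ?_⟩
        have h7 : τ ^ (K + 1) ≤ τ ^ k := pow_le_pow_of_le_one hτ0.le hτ1 (by omega)
        have h8 : μ * τ ^ (K + 1) = 2 * R := by
          rw [hτK]
          field_simp
        have h9 := mul_le_mul_of_nonneg_left h7 hμ.le
        show R < μ * τ ^ k
        linarith
      · have h7 : (2 : ℝ) ^ k ≤ 2 ^ K := pow_le_pow_right₀ (by norm_num) hk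
        have h8 : (0 : ℝ) ≤ 2 * τ := by positivity
        nlinarith
    have h10 := chop_meas (S := S) hη₀ (by positivity) hshort n a b le_rfl hab le_rfl (by
        have h11 := Nat.le_ceil ((b - a) / η₀)
        rw [← hn, div_le_iff₀ hη₀] at h11
        push_cast
        linarith)
    rw [Set.inter_eq_right.2 fun x hx => hx.1] at h10
    refine h10.trans (ENNReal.ofReal_le_ofReal ?_)
    rw [hC, mul_assoc, hrκ]
    push_cast
    have h12 : 0 ≤ b - a := by linarith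
    nlinarith

end Pool.Agent.GJ
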